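import Mathlib
import Pool.Agent.Run7.h200.AJG

/-!
# Group actions and the injectivity of the `p`-adic Abel–Jacobi map

Let a finite group `G` act on a smooth projective variety `X` over a field `k` (a number field). The
Chow groups `C` (rational coefficients), the cohomology `W` (the `p`-adic cohomology of `X` over the
algebraic closure) and the Abel–Jacobi maps `A` are as in `Pool.Agent.Run7.h192.AJ.Defs`, `A.Formal`
says that they have the usual functorial properties. For a subgroup `H` of `G` let
`J H` be the assertion that the Abel–Jacobi map is injective on the homologically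
trivial classes in `CH^i(X)^H = CH^i(X/H)`: this is the conjecture for the Chow motive
`(X, e_H, i)`, where `e_H` is the mean of the graphs of the elements of `H`, and for the quotient
`X/H`.

(1) The assertion for `H = 1` is the injectivity for `CH^i(X)`, and `J H` is inherited by bigger
groups.

(2) `Sieve`: let `K` be a commutative group of automorphisms, and `R_j` subgroups for which the
assertion is true, for example because `CH^i(X/R_j)` is one-dimensional. Then the Abel–Jacobi map is injective on `CH^i(X)` if and only if
this is so on `CH^i(X)^D` for the `D ⊆ K` for which `K/D` is cyclic, and which contain no `R_j`.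

(3) The injectivity for `CH^i(X)` is equivalent to the injectivity for all the quotients of a dominating
family (1 of `Rest`), for the quotients `X/D` with `K/D` cyclic, `K` commutative (2), by the
components of a partition of a subgroup (3), for `X/⟨c⟩` and `X/[G, c]`, `c` an involution (4), for
`X/⟨c⟩` if `c` is contained in a nonabelian simple subgroup (5), for `X/A_k` if `A_n` acts and
`(k - 1) ^ 2 < n` (6), and for `X/A_k` and the quotient by the even permutations preserving `k - 1`
classes, `2 ≤ k ≤ n` (7).

(4) If the symmetric group `S_n` acts, `(k - 1) ^ 2 < n`: the Abel–Jacobi map is injective on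
`CH^i(X)` if and only if it is injective on `CH^i(X/S_k)`, and its kernel contains no classes which are
alternating for `S_k`.

(5) If it is not injective, but injective for the quotients by the subgroups of prime order, then `G`
acts freely on the nonzero vectors of an irreducible representation which occurs in the kernel, the
commutative subgroups and the subgroups of order `p q` of `G` are cyclic, and `G` has at most one
involution.
-/

set_option autoImplicit false

open CategoryTheory Equiv Pool.Agent.H914 Pool.Agent.H914.VarClass Pool.Agent.H914.VarClass.Obj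
  Pool.Agent.R903 Run7.h200.CH Run7.h200.Van Run7.h200.AJG Run7.h200.Pr Pool.Agent.Run7.h192.AJ

universe u v w x

namespace Pool.Agent.Results.MP_386e47_ag.GroupActions

/-- `J H`: zero is the only class in the kernel of the Abel–Jacobi map for `CH^i(X)` which is invariant
under `H` (`actCH C a` is the action of `G` on the Chow groups). -/
abbrev J {k : Type u} [Field k] {𝒱 : VarClass k} {C : ChowTheory.{u, v} 𝒱}
    {W : WeilTheory.{u, v, w} C} (A : AJMap.{u, v, w, x} W) {X : 𝒱.Obj} {G : Type} [Group G]
    (a : G →* Aut X) (i : ℕ) : Subgroup G → Prop := NoInv (actCH C a) (A.Ker i)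

/-- **Group actions and the injectivity of Abel–Jacobi maps.** -/
theorem result {k : Type u} [Field k] {𝒱 : VarClass k} {C : ChowTheory.{u, v} 𝒱}
    {W : WeilTheory.{u, v, w} C} {A : AJMap.{u, v, w, x} W} (hA : A.Formal) (X : 𝒱.Obj)
    {G : Type} [Group G] [Finite G] (a : G →* Aut X) (i : ℕ) :
    ((J A a i ⊥ ↔ A.Injective X i) ∧ Mono (J A a i)) ∧ Sieve (J A a i) ∧
    (∀ (H : Subgroup G) (ι : Type) (E : ι → Subgroup G), Dom (actCH C a) (A.Ker i) H E →
      (∀ j, J A a i (E j)) → J A a i H) ∧
    Criteria (J A a i) ∧
    (∀ (n k : ℕ) (e : Perm (Fin n) →* G), 2 ≤ k → (k - 1) ^ 2 < n →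
      (J A a i ⊥ ↔ J A a i ((symSub n k).map e) ∧ NoAlt (actCH C a) (A.Ker i) e k)) ∧
    (¬ J A a i ⊥ → (∀ P : Subgroup G, (Nat.card P).Prime → J A a i P) →
      Fre (actCH C a) (A.Ker i) ∧ CyclicSubgroups G) := by
  obtain ⟨m1, m2, m3, m4, m5⟩ := Run7.h200.Pr.main (τ := actCH C a) (P := A.Ker i)
    (ρ := rep C a) (U := kerAJ hA X i) (fun _ _ => rfl) (fun _ => Iff.rfl) (stableAJ hA a i)
  exact ⟨⟨inj_bot a i, Run7.h200.Pr.mono⟩, m3, m1, m2, m4, m5⟩

end Pool.Agent.Results.MP_386e47_ag.GroupActions
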