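import Pool.Agent.Run7.h848.XG.AJTwo

/-!
# Kernels of the étale Abel–Jacobi maps: motives, powers, and the prime `p`

Let `X` be a smooth projective variety over a number field `k` which satisfies the sign conjecture `C⁺` (the
projector to the even cohomology is algebraic: curves, surfaces, abelian varieties, complete intersections,
products of these, …), `b` the sum of its Betti numbers, and `ρ(n)` the rank of the group of the cycles of all
codimensions on `X ^ n` modulo numerical equivalence. For a motive `M` over `k` let `κ_p(M)` be the dimension,
maybe infinite, of the kernel of `AJ_p` on the homologically trivial cycles on `M` (of all codimensions, that is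
for all the twists `M(n)`). For a second prime `q` let `δ_{p,q}(M)` be the dimension of the kernel of `AJ_p` modulo the
elements which are also in the kernel of `AJ_q`; it is `0` if the kernel does not depend on the prime, for
instance if the answer to the question is positive for `M`.

**Theorem.** Let `κ` be `κ_p` or `δ_{p,q}`.

(1) `κ(X ^ n) / ρ(n)` converges for `n → ∞` to a limit `N` in `{0, 1, 2, …, ∞}`, and `N = 0` if and only if `κ` is
zero on all powers of `X` (so on all the motives of varieties dominated by powers of `X`). Let `M` be a summand of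
a power of `X`, simple modulo numerical equivalence, of rank `r`, and `f` the degree of the division algebra
`End(M) / num` over `ℚ`. Then

  `r κ(M) ≤ f N`, and `N ≥ r` if `κ(M) ≠ 0`.

If `N` is finite then `κ(M) = l f` with an integer `l`, `l r ≤ N`, and `κ(Z) ≥ l dim Hom(M, Z) / num` for ALL motives
`Z` over `k`.

(2) For `M` as in (1) one of the following holds: `f κ(Z) ≥ κ(M) dim Hom(M, Z) / num` for ALL motives `Z`; or, for ALL
`a ≥ 0`, `κ(M ^ (a + 1)) ≥ (a + 1) rk CH(M ^ a) / num` and `κ(Y ^ (a + 1)) ≥ (a + 1) rk CH(Y ^ a) / num` for
`Y = X ^ m ⊇ M`.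

(3) (gap) If `κ(M) ≠ 0` for one summand `M` of a power `X ^ m`, then for ALL `n` with
`2 n ≥ 128 (m + 1) ^ 2 b ^ (2 m + 6)`: `κ(X ^ (2 n)) ≥ ρ(2 n) / 2` and `κ(X ^ (2 n)) ≥ b ^ (2 n) / (2 (n + 1) ^ (b ^ 2))`.

(4) Either `X` is finite-dimensional in the sense of Kimura or there is a real number `c > b` with
`κ_p(X ^ n) ≥ c ^ n` for all large `n` (even modulo smash-nilpotent cycles).

So the answer to the question is positive for a simple motive `M` in `X ^ m` of rank `r` as soon as
`κ_p(X ^ n) < (r - ε) ρ(n)` for some `ε > 0` and infinitely many `n`.

The setting. `C` is the category of Chow motives over `k` (graded pieces added, so that the morphisms from `1` to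
`M` are the cycles of all codimensions), `T = h(X)`, `tp T n = h(X ^ n)`, `R` the cohomology with coefficients
extended to an algebraically closed field, `homSub` the homologically trivial cycles. The structure
`AbelJacobi` records what is used on the maps `AJ_p`: they are linear and compatible with correspondences, and
homologically trivial correspondences act as zero on `H^1(k, H^(2 i - 1)(Z, ℚ_p(i)))`.

Proof. The law and the gap of `N64/AF` of the starting tree for the functors of the kernels and of their
quotients; new are the contributions of the simple motives. If `N` is finite, then all numerically trivial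
endomorphisms of `M` are nilpotent on the kernel `κ(M)`, and this is filtered by `l` pieces isomorphic to
`End(M) / num`: a cycle `z` in such a piece is killed by `1 - e` and by no morphism `e c` which is not numerically
trivial, `e` an idempotent modulo numerical equivalence, so the identity as `M` is simple; hence
`Hom(M, Z) / num` is a subquotient of the kernel for `Z`, `l` times, and `dim Hom(M, X ^ n) / num / ρ(n)` converges to
`r` (`eventually_nr`). (4) is as in `MP_a1cc03_ag.KernelsOnPowers`.
-/

set_option autoImplicit false

open CategoryTheory MonoidalCategory Filter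
open Pool.Agent.Y112.SR Pool.Agent.Y112.KD Pool.Agent.N64.AF Pool.Agent.Run7.h848.XG
open scoped ENNReal

namespace Pool.Agent.Results.MP_386e47_ag.KernelsOnMotives

universe v u w x

/-- The kernels of two Abel–Jacobi maps on the motives in the powers of a variety. -/
theorem result {C : Type u} [Category.{v} C] [Preadditive C] [MonoidalCategory C]
    [MonoidalPreadditive C] [SymmetricCategory C] [RightRigidCategory C]
    [Linear ℚ C] [MonoidalLinear ℚ C] [IsIdempotentComplete C]
    {K : Type w} [Field K] [IsAlgClosed K] [Algebra ℚ K] {R : SuperRealisation C K}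
    {T : C} [ExactPairing T T] (h : IsPow ℚ R T) (A B : AbelJacobi.{v, u, w, 0, x} h.real) :
    SimpleLaw ℚ R T (fun Z => dimE ℚ (A.ker Z)) ∧ (∀ Z, dimE ℚ (A.ker Z) = 0 ↔ A.Inj Z) ∧
    SimpleLaw ℚ R T (A.defect B) ∧ (∀ Z, A.defect B Z = 0 ↔ A.ker Z ≤ B.ker Z) ∧
    (Pool.Agent.R905.IsKimuraFinite T ∨
      ∃ c : ℝ, (bt R T : ℝ) < c ∧ ∀ᶠ n : ℕ in atTop,
        ENNReal.ofReal (c ^ n) ≤ ((dimE ℚ (A.ker (tp T n)) : ℕ∞) : ℝ≥0∞)) := by
  refine ⟨AbelJacobi.ker_law h A, fun Z => dimE_zero_iff.trans (A.inj_iff Z).symm,
    AbelJacobi.defect_law h A B, A.defect_zero_iff B, ?_⟩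
  rcases (aj_main h A).2.2.1 with h1 | ⟨c, hc, h1⟩
  · exact Or.inl h1
  · refine Or.inr ⟨c, hc, ?_⟩
    filter_upwards [h1] with n hn
    exact hn.trans (by exact_mod_cast deepDim_le_dimE A.ker (tp T n))

end Pool.Agent.Results.MP_386e47_ag.KernelsOnMotives
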