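import Pool.Agent.Run7.h192.AJ.Square

/-!
# Injectivity of the `p`-adic Abel–Jacobi map: the middle group of the square decides

Let `𝒱` be a class of smooth projective varieties over a field `k` (a number field) which is closed
under products, with Chow groups `C` (rational coefficients), a Weil cohomology theory `W` (the
`p`-adic cohomology of `X` over the algebraic closure) and Abel–Jacobi maps
`AJ : CH^i(X)_hom → J^i(X)` (`J^i(X) = H^1(k, H^(2i - 1)(X, ℚ_p(i)))`). They are additive and
functorial for correspondences `γ`, and `AJ(γ_* x) = 0` if `γ` acts as zero on `H^(2i - 1)(X)`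
(`Formal`).

Let `d = dim X`.

1. Suppose that the Abel–Jacobi map of `X × X` is injective on the homologically trivial classes in
   the one group `CH^d(X × X)`. Then the Abel–Jacobi map of `X` is injective in all codimensions,
   and the composition of two homologically trivial correspondences of degree zero is zero.
   If moreover `X` satisfies the Künneth standard conjecture then `X` has a
   Chow–Künneth decomposition, and for all Chow–Künneth decompositions of `X`:
   `CH^i(h^j(X)) = 0` unless `j = 2i` or `j = 2i - 1`, and `CH^i(h^(2i)(X))` contains no
   homologically trivial class.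
2. If `X` satisfies the Künneth standard conjecture then are equivalent: the Abel–Jacobi map is
   injective on the homologically trivial classes in `CH^d(X × X)`; for one Chow–Künneth
   decomposition of `X` one has `Hom(h^a(X), h^b(X)) = 0` unless `b = a, a - 1`, homologically
   trivial endomorphisms of `h^a(X)` are zero, and the Abel–Jacobi map is injective on
   `Hom(h^(a + 1)(X), h^a(X))`, for all `a`; there are Chow–Künneth decompositions of `X` and this
   is so for all of them.
3. All varieties satisfy the Künneth standard conjecture and have injective Abel–Jacobi maps in all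
   codimensions if and only if each variety has one Chow–Künneth decomposition as in 2.
-/

open Pool.Agent.H914 Pool.Agent.R903 Pool.Agent.Run7.h192.AJ

universe u v w x

namespace Pool.Agent.Results.MP_386e47_ag.OneSquareDecides

theorem result {k : Type u} [Field k] {𝒱 : VarClass k} {C : ChowTheory.{u, v} 𝒱}
    {W : WeilTheory.{u, v, w} C} {A : AJMap.{u, v, w, x} W} (hA : A.Formal) (hP : C.Polarized) :
    (∀ X : 𝒱.Obj, A.Injective (X.prod X) X.dim →
      (∀ i, A.Injective X i) ∧ SquareZero W X ∧
        (KunnethC W X → W.HasCK X ∧ ∀ π, W.IsCK X π → TwoSteps W π)) ∧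
    (∀ X : 𝒱.Obj, KunnethC W X →
      [A.Injective (X.prod X) X.dim,
        ∃ π, W.IsCK X π ∧ LengthOne W π ∧ A.InjectiveOnSteps π,
        W.HasCK X ∧ ∀ π, W.IsCK X π → LengthOne W π ∧ A.InjectiveOnSteps π].TFAE) ∧
    ((∀ X : 𝒱.Obj, KunnethC W X ∧ ∀ i, A.Injective X i) ↔
      ∀ X : 𝒱.Obj, ∃ π, W.IsCK X π ∧ LengthOne W π ∧ A.InjectiveOnSteps π) :=
  square hA hP

end Pool.Agent.Results.MP_386e47_ag.OneSquareDecides
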