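import Pool.Agent.Run7.h954.RV.PAdic

/-!
# The injectivity of the `p`-adic Abel-Jacobi maps and rational varieties over `ℚ`

`T K p` consists of the `p`-adic Abel-Jacobi maps `CH^m(X)^0_ℚ → H^1(K, H^{2m-1}(X, ℚ_p(m)))` for schemes over the
number field `K`, with well known properties; `Geometry ℚ` consists of well known facts on smooth projective
varieties over `ℚ`. Blow-ups are defined by their universal property.

The injectivity for all number fields and all Chow motives is equivalent to the injectivity in codimension `n` for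
the smooth projective rational varieties over `ℚ` of dimension `2 n - 1`, for all `n` in an arbitrary infinite set.
-/

set_option autoImplicit false

universe u

namespace Pool.Agent.Results.MP_386e47_ag.RationalVarieties

open Pool.Agent.Run7.h954.RV

theorem result (G : Geometry ℚ) (T : Family.{u}) (E : Corr T) (hT : ∀ p, IsAJ (T ℚ p)) (hres : Shapiro T)
    (hE : ∀ (p : Nat.Primes) (m : ℤ) (X : Sch ℚ), AddMonoidHom.id _ ∈ E ℚ p m X) (p : Nat.Primes) :
    -- all number fields, all motives; middle codimension of rational varieties over `ℚ`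
    (∀ S : Set ℕ, S.Infinite → (Question T E p ↔
      ∀ n ∈ S, ∀ Y : Sch ℚ, RatVar (2 * n - 1) Y → (T ℚ p).Inj n Y)) ∧
    -- codimension at most `m` for all varieties; codimension `m + 1` for rational varieties
    (∀ m : ℤ, (∀ X : Sch ℚ, SmoothProj X → ∀ b ≤ m, (T ℚ p).Inj b X) ↔
      ∀ (N : ℕ) (Y : Sch ℚ), RatVar N Y → (T ℚ p).Inj (m + 1) Y) ∧
    -- dimension at most `D`, all codimensions; codimension `D + 1` of blow-ups of `P^{2D+1}`
    (∀ D : ℕ, (∀ (X : Sch ℚ) (d : ℕ), SmoothProj X → Dim X d → d ≤ D → ∀ m, (T ℚ p).Inj m X) ↔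
      ∀ (X Y : Sch ℚ) (d : ℕ) (i : X ⟶ PP ℚ (2 * D + 1)) (π : Y ⟶ PP ℚ (2 * D + 1)), d ≤ D →
        Center i d (2 * D + 1) → IsBlowUp i π → (T ℚ p).Inj (D + 1) Y) ∧
    -- one variety
    (∀ X : Sch ℚ, SmoothProj X → ∀ d, Dim X d → ∀ n, d + 1 ≤ n →
      ∃ (i : X ⟶ PP ℚ (2 * n - 1)) (Y : Sch ℚ) (π : Y ⟶ PP ℚ (2 * n - 1)),
        Center i d (2 * n - 1) ∧ IsBlowUp i π ∧ RatVar (2 * n - 1) Y ∧
          ((∀ m, (T ℚ p).Inj m X) ↔ (T ℚ p).Inj n Y) ∧
          Nonempty (((T ℚ p).aj n Y).ker ≃+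
            (∀ a : Fin (2 * n - 1 - d - 1), ((T ℚ p).aj (n - (a + 1)) X).ker))) :=
  ⟨fun _ hS => (question_iff hres hE p).trans (infinite G (hT p).compatible hS),
    level G (hT p).compatible, dimension G (hT p), fun _ hX _ hd _ hn => one G (hT p) hX hd hn⟩

end Pool.Agent.Results.MP_386e47_ag.RationalVarieties
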